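import Pool.Agent.Helper52.NF.St2

set_option autoImplicit false

namespace Pool.Agent.Helper65.NF

open Pool.Agent.Helper52.NF Finset

/-- members of the span of vectors vanishing at `e` vanish at `e` -/
theorem span_van {ε : Type} (S : Set (ε → ZMod 2)) (e : ε) (hS : ∀ x ∈ S, x e = 0) :
    ∀ x ∈ Submodule.span (ZMod 2) S, x e = 0 := by
  intro x hx
  induction hx using Submodule.span_induction with
  | mem x hx => exact hS x hx
  | zero => rfl
  | add x y _ _ hx hy => rw [Pi.add_apply, hx, hy, add_zero]
  | smul a x _ hx => rw [Pi.smul_apply, hx, smul_zero]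

theorem hMAC : StMAC := by
  intro ε _ _ W F hW hspan hc R
  induction R using Finset.induction_on with
  | empty => exact ⟨F, fun x hx => ⟨hW x hx, by simp⟩, fun x hx _ => hspan x hx, hc⟩
  | insert e R he ih =>
    obtain ⟨F', h1, h2, h3⟩ := ih
    have hK := h3 e
    have h012 : (F'.filter (fun x => x e ≠ 0)).card = 0 ∨ (F'.filter (fun x => x e ≠ 0)).card = 1 ∨
        (F'.filter (fun x => x e ≠ 0)).card = 2 := by omega
    rcases h012 with h0 | h0 | h0
    · -- no member is nonzero at `e`
      have hz : ∀ x ∈ F', x e = 0 := by
        intro x hx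
        by_contra hne
        have : x ∈ F'.filter (fun x => x e ≠ 0) := Finset.mem_filter.mpr ⟨hx, hne⟩
        rw [Finset.card_eq_zero.mp h0] at this
        simp at this
      refine ⟨F', fun x hx => ⟨(h1 x hx).1, fun e' he' => ?_⟩, fun x hx hx0 => ?_, h3⟩
      · rcases Finset.mem_insert.mp he' with rfl | h
        · exact hz x hx
        · exact (h1 x hx).2 e' h
      · exact h2 x hx (fun e' he' => hx0 e' (Finset.mem_insert_of_mem he'))
    · -- one member
      obtain ⟨C, hC⟩ := Finset.card_eq_one.mp h0
      have hCm : C ∈ F'.filter (fun x => x e ≠ 0) := by rw [hC]; simp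
      obtain ⟨hCF, hCe⟩ := Finset.mem_filter.mp hCm
      have hz : ∀ x ∈ F'.erase C, x e = 0 := by
        intro x hx
        by_contra hne
        have : x ∈ F'.filter (fun x => x e ≠ 0) :=
          Finset.mem_filter.mpr ⟨Finset.mem_of_mem_erase hx, hne⟩
        rw [hC, Finset.mem_singleton] at this
        exact (Finset.ne_of_mem_erase hx) this
      refine ⟨F'.erase C, fun x hx => ⟨(h1 x (Finset.mem_of_mem_erase hx)).1, fun e' he' => ?_⟩,
        fun x hx hx0 => ?_, fun e' => ?_⟩
      · rcases Finset.mem_insert.mp he' with rfl | h
        · exact hz x hx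
        · exact (h1 x (Finset.mem_of_mem_erase hx)).2 e' h
      · have hxs := h2 x hx (fun e' he' => hx0 e' (Finset.mem_insert_of_mem he'))
        have hins : (F' : Set (ε → ZMod 2)) = insert C ((F'.erase C : Finset _) : Set (ε → ZMod 2)) := by
          rw [← Finset.coe_insert, Finset.insert_erase hCF]
        rw [hins, Submodule.mem_span_insert] at hxs
        obtain ⟨a, y, hy, rfl⟩ := hxs
        have hy0 := span_van _ e (fun z hz' => hz z (Finset.mem_coe.mp hz')) y hy
        have hx1 := hx0 e (Finset.mem_insert_self e R)
        rw [Pi.add_apply, Pi.smul_apply, hy0, add_zero, smul_eq_mul, zne hCe, mul_one] at hx1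
        rw [hx1, zero_smul, zero_add]
        exact hy
      · exact (Finset.card_le_card (Finset.filter_subset_filter _ (Finset.erase_subset _ _))).trans
          (h3 e')
    · -- two members
      obtain ⟨C, D, hCD, hK2⟩ := Finset.card_eq_two.mp h0
      have hCm : C ∈ F'.filter (fun x => x e ≠ 0) := by rw [hK2]; simp
      have hDm : D ∈ F'.filter (fun x => x e ≠ 0) := by rw [hK2]; simp
      obtain ⟨hCF, hCe⟩ := Finset.mem_filter.mp hCm
      obtain ⟨hDF, hDe⟩ := Finset.mem_filter.mp hDm
      have hz : ∀ x ∈ (F'.erase C).erase D, x e = 0 := by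
        intro x hx
        by_contra hne
        have hx1 := Finset.mem_of_mem_erase hx
        have : x ∈ F'.filter (fun x => x e ≠ 0) :=
          Finset.mem_filter.mpr ⟨Finset.mem_of_mem_erase hx1, hne⟩
        rw [hK2, Finset.mem_insert, Finset.mem_singleton] at this
        rcases this with h | h
        · exact (Finset.ne_of_mem_erase hx1) h
        · exact (Finset.ne_of_mem_erase hx) h
      refine ⟨insert (C + D) ((F'.erase C).erase D), fun x hx => ?_, fun x hx hx0 => ?_,
        fun e' => ?_⟩
      · rcases Finset.mem_insert.mp hx with rfl | hx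
        · refine ⟨W.add_mem (h1 C hCF).1 (h1 D hDF).1, fun e' he' => ?_⟩
          rw [Pi.add_apply]
          rcases Finset.mem_insert.mp he' with rfl | h
          · rw [zne hCe, zne hDe]; exact zz 1
          · rw [(h1 C hCF).2 e' h, (h1 D hDF).2 e' h, add_zero]
        · have hxF := Finset.mem_of_mem_erase (Finset.mem_of_mem_erase hx)
          refine ⟨(h1 x hxF).1, fun e' he' => ?_⟩
          rcases Finset.mem_insert.mp he' with rfl | h
          · exact hz x hx
          · exact (h1 x hxF).2 e' h
      · have hxs := h2 x hx (fun e' he' => hx0 e' (Finset.mem_insert_of_mem he'))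
        have hDF1 : D ∈ F'.erase C := Finset.mem_erase.mpr ⟨hCD.symm, hDF⟩
        have hins : (F' : Set (ε → ZMod 2)) =
            insert C (insert D (((F'.erase C).erase D : Finset _) : Set (ε → ZMod 2))) := by
          rw [← Finset.coe_insert, Finset.insert_erase hDF1, ← Finset.coe_insert,
            Finset.insert_erase hCF]
        rw [hins, Submodule.mem_span_insert] at hxs
        obtain ⟨a, y', hy', rfl⟩ := hxs
        rw [Submodule.mem_span_insert] at hy'
        obtain ⟨b, y, hy, rfl⟩ := hy'
        have hy0 := span_van _ e (fun z hz' => hz z (Finset.mem_coe.mp hz')) y hy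
        have hx1 := hx0 e (Finset.mem_insert_self e R)
        rw [Pi.add_apply, Pi.add_apply, Pi.smul_apply, Pi.smul_apply, hy0, add_zero, smul_eq_mul,
          smul_eq_mul, zne hCe, zne hDe, mul_one, mul_one] at hx1
        have hab : a = b := by
          have h5 : a + b + b = b := by rw [hx1, zero_add]
          rw [add_assoc, zz, add_zero] at h5
          exact h5
        rw [hab, ← add_assoc, ← smul_add, Finset.coe_insert, Submodule.mem_span_insert]
        exact ⟨b, y, hy, rfl⟩
      · rw [Finset.filter_insert]
        have hsub : ((F'.erase C).erase D).filter (fun x => x e' ≠ 0) ⊆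
            F'.filter (fun x => x e' ≠ 0) :=
          Finset.filter_subset_filter _ ((Finset.erase_subset _ _).trans (Finset.erase_subset _ _))
        split_ifs with hne
        · have hne' : C e' + D e' ≠ 0 := hne
          have hex : ∃ B ∈ F'.filter (fun x => x e' ≠ 0), B ∉ (F'.erase C).erase D := by
            rcases z01 (C e') with h | h
            · refine ⟨D, Finset.mem_filter.mpr ⟨hDF, ?_⟩, by simp⟩
              rw [h, zero_add] at hne'
              exact hne'
            · refine ⟨C, Finset.mem_filter.mpr ⟨hCF, by rw [h]; exact one_ne_zero⟩, by simp⟩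
          obtain ⟨B, hB, hB'⟩ := hex
          have hss : ((F'.erase C).erase D).filter (fun x => x e' ≠ 0) ⊂
              F'.filter (fun x => x e' ≠ 0) := by
            refine Finset.ssubset_iff_subset_ne.mpr ⟨hsub, fun heq => hB' ?_⟩
            rw [← heq] at hB
            exact (Finset.mem_filter.mp hB).1
          have hlt := Finset.card_lt_card hss
          have hle := Finset.card_insert_le (C + D) (((F'.erase C).erase D).filter (fun x => x e' ≠ 0))
          have := h3 e'
          omega
        · exact (Finset.card_le_card hsub).trans (h3 e')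

end Pool.Agent.Helper65.NF
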